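import Pool.Agent.Helper14.SquareDesign

/-!
# The fractional lower bound

`frac_of_spread`: the fractional lower bound from the spreading statement `Spread`.
-/

set_option autoImplicit false
set_option linter.unusedSectionVars false

namespace Pool.Agent.Helper14.SL

open Pool.Agent.Helper14.Square

section counting

variable {I : Type} [Fintype I] [DecidableEq I]

/-- The choice functions on `S`. -/
def Pi (n : I → ℕ) (S : Finset I) : Finset (I → ℕ) :=
  Fintype.piFinset fun l => if l ∈ S then Finset.range (n l) else {0}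

lemma card_Pi (n : I → ℕ) (S A : Finset I) (hA : A ⊆ S) (s : I → ℕ) (hs : ∀ l ∈ A, s l < n l) :
    (∏ l ∈ A, n l) * ((Pi n S).filter fun σ => ∀ l ∈ A, σ l = s l).card = ∏ l ∈ S, n l := by
  have h : (Pi n S).filter (fun σ => ∀ l ∈ A, σ l = s l) =
      Fintype.piFinset fun l => if l ∈ A then {s l} else if l ∈ S then Finset.range (n l) else {0} := by
    ext σ
    simp only [Pi, Finset.mem_filter, Fintype.mem_piFinset]
    constructor
    · rintro ⟨h1, h2⟩ l
      by_cases hl : l ∈ A
      · rw [if_pos hl, Finset.mem_singleton]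
        exact h2 l hl
      · rw [if_neg hl]
        exact h1 l
    · intro h1
      refine ⟨fun l => ?_, fun l hl => ?_⟩
      · have h2 := h1 l
        by_cases hl : l ∈ A
        · rw [if_pos hl, Finset.mem_singleton] at h2
          rw [if_pos (hA hl), Finset.mem_range, h2]
          exact hs l hl
        · rwa [if_neg hl] at h2
      · have h2 := h1 l
        rwa [if_pos hl, Finset.mem_singleton] at h2
  rw [h, Fintype.card_piFinset]
  have h1 : ∀ l, (if l ∈ A then ({s l} : Finset ℕ) else if l ∈ S then Finset.range (n l) else {0}).card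
      = if l ∈ S \ A then n l else 1 := by
    intro l
    by_cases hl : l ∈ A
    · simp [hl]
    · by_cases hl2 : l ∈ S
      · simp [hl, hl2]
      · simp [hl, hl2]
  rw [Finset.prod_congr rfl fun l _ => h1 l, Finset.prod_ite_mem, Finset.univ_inter, mul_comm,
    Finset.prod_sdiff hA]

end counting

open Classical in
/-- The spreading statement (S1). -/
def Spread : Prop :=
  ∀ (k : ℕ) (_ : 2 ≤ k) {J B : Type} [Fintype J] [Fintype B]
    (S : B → Finset J) (_ : ∀ b, (S b).card ≤ k) (E : J → J → Prop) (_ : ∀ i j, E i j → i ≠ j)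
    (lam : ℕ) (_ : 0 < lam)
    (_ : ∀ i j, E i j → lam ≤ (Finset.univ.filter fun b => i ∈ S b ∧ j ∈ S b).card)
    (ε : ℝ) (_ : 0 < ε),
    ∃ (G F : Type) (_ : Fintype G) (_ : Nonempty G) (_ : Fintype F) (blk : F → J × G → Prop),
      (∀ f, (Finset.univ.filter fun v => blk f v).card ≤ k) ∧
      (∀ (i : J) (z : G), ((Finset.univ.filter fun f => blk f (i, z)).card : ℝ) ≤
        (((Finset.univ.filter fun b => i ∈ S b).card : ℝ) / lam + ε) * Fintype.card G) ∧
      (∀ i j, E i j → ∀ z z' : G, ∃ f, blk f (i, z) ∧ blk f (j, z'))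

open Classical in
theorem frac_of_spread (spread : Spread) (k : ℕ) (hk : 2 ≤ k) {I X : Type} [Fintype I] [Fintype X]
    (hub : I → Finset X) (w : I → ℝ) (x : Finset I → ℝ)
    (hhub : ∀ i, (hub i).card ≤ k) (hhub0 : ∀ i, (hub i).Nonempty)
    (hw : ∀ i, 0 ≤ w i)
    (hload : ∀ h, ∑ i ∈ Finset.univ.filter (fun i => h ∈ hub i), w i ≤ 1)
    (hx0 : ∀ S, 0 ≤ x S) (hxk : ∀ S : Finset I, k < S.card → x S = 0)
    (hcov : ∀ i j, i ≠ j → Disjoint (hub i) (hub j) →
      w i * w j ≤ ∑ S ∈ Finset.univ.filter (fun S : Finset I => i ∈ S ∧ j ∈ S), x S)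
    (hdeg : ∀ i, ∑ S ∈ Finset.univ.filter (fun S : Finset I => i ∈ S), x S ≤ w i)
    (ε : ℝ) (hε : 0 < ε) :
    ∃ C : ℝ, ∀ D : ℕ, (∑ i, w i - ε) * D - C ≤ M k D := by
  -- the constants
  set W : ℝ := ∑ i, w i with hW
  have hW0 : 0 ≤ W := Finset.sum_nonneg fun i _ => hw i
  set δ : ℝ := ε / (4 * (W + 1)) with hδ
  have hδ0 : 0 < δ := by positivity
  have hδW : 2 * δ * W ≤ ε / 2 := by
    have h1 : 2 * δ * W = ε / 2 * (W / (W + 1)) := by
      rw [hδ]; field_simp; ring
    have h2 : W / (W + 1) ≤ 1 := by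
      rw [div_le_one (by linarith)]; linarith
    rw [h1]
    nlinarith
  obtain ⟨N, hN⟩ := exists_nat_gt (∑ i, (1 + 3 / δ) / w i + 2 * Fintype.card I / ε + 1 / δ + 1)
  have hs0 : ∀ i, 0 ≤ (1 + 3 / δ) / w i := fun i => div_nonneg (by positivity) (hw i)
  have hs1 : 0 ≤ ∑ i, (1 + 3 / δ) / w i := Finset.sum_nonneg fun i _ => hs0 i
  have ha1 : (0 : ℝ) ≤ 2 * Fintype.card I / ε := by positivity
  have ha2 : (0 : ℝ) < 1 / δ := by positivity
  have hN1 : (1 : ℝ) ≤ N := by linarith
  have hNa : ∀ i, 0 < w i → 1 + 3 / δ ≤ N * w i := by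
    intro i hi
    have h1 : (1 + 3 / δ) / w i ≤ ∑ i, (1 + 3 / δ) / w i :=
      Finset.single_le_sum (f := fun i => (1 + 3 / δ) / w i) (fun i _ => hs0 i) (Finset.mem_univ i)
    have h2 : (1 + 3 / δ) / w i ≤ N := by linarith
    rwa [div_le_iff₀ hi] at h2
  have hNb : (Fintype.card I : ℝ) ≤ N * (ε / 2) := by
    have h2 : 2 * (Fintype.card I : ℝ) / ε ≤ N := by linarith
    rw [div_le_iff₀ hε] at h2
    linarith
  have hNc : 1 ≤ N * δ := by
    have h2 : 1 / δ ≤ N := by linarith
    rwa [div_le_iff₀ hδ0] at h2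
  have hN0 : (0 : ℝ) < N := by linarith
  set n : I → ℕ := fun i => ⌊N * w i⌋₊ with hn
  have hnle : ∀ i, (n i : ℝ) ≤ N * w i := fun i => Nat.floor_le (mul_nonneg hN0.le (hw i))
  have hngt : ∀ i, N * w i - 1 < n i := fun i => Nat.sub_one_lt_floor _
  have hnw : ∀ i, 0 < n i → 0 < w i := by
    intro i hi
    rcases (hw i).lt_or_eq with h | h
    · exact h
    · exfalso
      have := hnle i
      rw [← h, mul_zero] at this
      have h2 : (0 : ℝ) < n i := by exact_mod_cast hi
      linarith
  have hwn : ∀ i, 0 < w i → 3 / δ ≤ n i := by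
    intro i hi
    have := hNa i hi
    have := hngt i
    linarith
  have hwn' : ∀ i, 0 < w i → 0 < n i := by
    intro i hi
    have h1 := hwn i hi
    have h2 : (0 : ℝ) < 3 / δ := by positivity
    have h3 : (0 : ℝ) < n i := by linarith
    exact_mod_cast h3
  set K : ℕ := ∑ S : Finset I, ∏ l ∈ S, n l with hK
  obtain ⟨lam, hlam⟩ := exists_nat_gt (3 * K / δ)
  have hlam0 : (0 : ℝ) < lam := lt_of_le_of_lt (by positivity) hlam
  have hlamN : 0 < lam := by exact_mod_cast hlam0
  have hKlam : (K : ℝ) / lam ≤ δ / 3 * N := by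
    rw [div_lt_iff₀ hδ0] at hlam
    rw [div_le_iff₀ hlam0]
    nlinarith
  set m : Finset I → ℕ := fun S => ⌈(N : ℝ) ^ 2 * lam * x S / ∏ l ∈ S, (n l : ℝ)⌉₊ with hm
  -- the block system
  set J : Type := (i : I) × Fin (n i) with hJ
  set B : Type := (S : Finset I) × (Fin (m S) × (Pi n S : Finset (I → ℕ))) with hB
  set Sb : B → Finset J := fun b => Finset.univ.filter fun p : J => p.1 ∈ b.1 ∧
    (b.2.2 : I → ℕ) p.1 = p.2 with hSb
  have hSbk : ∀ b, (Sb b).card ≤ k := by
    rintro ⟨S, c, σ⟩
    have h1 : 0 < m S := lt_of_le_of_lt (Nat.zero_le _) c.2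
    have h2 : x S ≠ 0 := by
      intro h
      simp only [hm, h, mul_zero, zero_div, Nat.ceil_zero, lt_self_iff_false] at h1
    have h3 : S.card ≤ k := by
      by_contra hcon
      exact h2 (hxk S (not_le.1 hcon))
    refine le_trans ?_ h3
    refine Finset.card_le_card_of_injOn (fun p => p.1) ?_ ?_
    · intro p hp
      simp only [hSb, Finset.coe_filter, Finset.mem_univ, true_and, Set.mem_ofPred_eq] at hp
      exact hp.1
    · rintro ⟨i, s⟩ hp ⟨j, t⟩ hq heq
      simp only [hSb, Finset.coe_filter, Finset.mem_univ, true_and, Set.mem_ofPred_eq] at hp hq heq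
      subst heq
      congr 1
      apply Fin.ext
      rw [← hp.2, ← hq.2]
  have hcount : ∀ (Q : Finset I → (I → ℕ) → Prop),
      ((Finset.univ.filter fun b : B => Q b.1 b.2.2).card : ℝ) =
        ∑ S : Finset I, (m S : ℝ) * (((Pi n S).filter fun σ => Q S σ).card : ℝ) := by
    intro Q
    have h1 : (Finset.univ.filter fun b : B => Q b.1 b.2.2).card =
        ∑ S : Finset I, m S * ((Pi n S).filter fun σ => Q S σ).card := by
      rw [Finset.card_filter, Fintype.sum_sigma]
      apply Finset.sum_congr rfl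
      intro S _
      rw [Fintype.sum_prod_type]
      have h0 : ∀ c : Fin (m S), (∑ y : (Pi n S : Finset (I → ℕ)),
          if Q S (y : I → ℕ) then 1 else 0) = ((Pi n S).filter fun σ => Q S σ).card := by
        intro c
        rw [Finset.card_filter, ← Finset.sum_coe_sort (Pi n S)]
      refine (Finset.sum_congr rfl fun c _ => h0 c).trans ?_
      rw [Finset.sum_const, Finset.card_univ, Fintype.card_fin, smul_eq_mul]
    rw [h1]
    push_cast
    rfl
  have hone : ∀ (S : Finset I) (i : I) (s : Fin (n i)), i ∈ S →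
      (n i : ℝ) * (((Pi n S).filter fun σ => i ∈ S ∧ σ i = (s : ℕ)).card : ℝ) = ∏ l ∈ S, (n l : ℝ) := by
    intro S i s hi
    have h1 := card_Pi n S {i} (Finset.singleton_subset_iff.2 hi) (fun _ => (s : ℕ)) (by
      intro l hl
      rw [Finset.mem_singleton] at hl
      subst hl
      exact s.2)
    rw [Finset.prod_singleton] at h1
    have h2 : ((Pi n S).filter fun σ => i ∈ S ∧ σ i = (s : ℕ)) =
        (Pi n S).filter fun σ => ∀ l ∈ ({i} : Finset I), σ l = (s : ℕ) := by
      apply Finset.filter_congr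
      intro σ _
      simp [hi]
    rw [h2]
    exact_mod_cast h1
  have htwo : ∀ (S : Finset I) (i j : I) (s : Fin (n i)) (t : Fin (n j)), i ∈ S → j ∈ S → i ≠ j →
      (n i : ℝ) * n j * (((Pi n S).filter fun σ => (i ∈ S ∧ σ i = (s : ℕ)) ∧ (j ∈ S ∧ σ j = (t : ℕ))).card : ℝ)
        = ∏ l ∈ S, (n l : ℝ) := by
    intro S i j s t hi hj hij
    have h1 := card_Pi n S {i, j} (by
      intro l hl
      simp only [Finset.mem_insert, Finset.mem_singleton] at hl
      rcases hl with rfl | rfl <;> assumption) (fun l => if l = i then (s : ℕ) else (t : ℕ)) (by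
      intro l hl
      simp only [Finset.mem_insert, Finset.mem_singleton] at hl
      rcases hl with rfl | rfl
      · simp
      · rw [if_neg hij.symm]
        exact t.2)
    rw [Finset.prod_pair hij] at h1
    have h2 : ((Pi n S).filter fun σ => (i ∈ S ∧ σ i = (s : ℕ)) ∧ (j ∈ S ∧ σ j = (t : ℕ))) =
        (Pi n S).filter fun σ => ∀ l ∈ ({i, j} : Finset I), σ l = if l = i then (s : ℕ) else t := by
      apply Finset.filter_congr
      intro σ _
      simp [hi, hj, hij.symm]
    rw [h2]
    exact_mod_cast h1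
  set E : J → J → Prop := fun p p' => p.1 ≠ p'.1 ∧ Disjoint (hub p.1) (hub p'.1) with hE
  -- the coverage
  have hlam2 : ∀ p p', E p p' →
      lam ≤ (Finset.univ.filter fun b => p ∈ Sb b ∧ p' ∈ Sb b).card := by
    rintro ⟨i, s⟩ ⟨j, t⟩ ⟨hij, hd⟩
    have hni : 0 < n i := lt_of_le_of_lt (Nat.zero_le _) s.2
    have hnj : 0 < n j := lt_of_le_of_lt (Nat.zero_le _) t.2
    have hni' : (0 : ℝ) < n i := by exact_mod_cast hni
    have hnj' : (0 : ℝ) < n j := by exact_mod_cast hnj
    have h2 : ((Finset.univ.filter fun b => (⟨i, s⟩ : J) ∈ Sb b ∧ (⟨j, t⟩ : J) ∈ Sb b).card : ℝ) =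
        ∑ S : Finset I, (m S : ℝ) * (((Pi n S).filter fun σ =>
          (i ∈ S ∧ σ i = (s : ℕ)) ∧ (j ∈ S ∧ σ j = (t : ℕ))).card : ℝ) := by
      refine Eq.trans ?_ ((hcount (fun S σ => (i ∈ S ∧ σ i = (s : ℕ)) ∧
        (j ∈ S ∧ σ j = (t : ℕ)))).trans ?_)
      · congr 2
        ext b
        simp only [hSb, Finset.mem_filter, Finset.mem_univ, true_and]
      · apply Finset.sum_congr rfl
        intro S _
        congr 3
        ext σ
        simp only [Finset.mem_filter]
    rw [← Nat.cast_le (α := ℝ), h2]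
    have h3 : ∀ S : Finset I, i ∈ S ∧ j ∈ S → (N : ℝ) ^ 2 * lam * x S / (n i * n j) ≤
        (m S : ℝ) * (((Pi n S).filter fun σ => (i ∈ S ∧ σ i = (s : ℕ)) ∧ (j ∈ S ∧ σ j = (t : ℕ))).card : ℝ) := by
      rintro S ⟨hi, hj⟩
      have h4 := htwo S i j s t hi hj hij
      set c : ℝ := (((Pi n S).filter fun σ => (i ∈ S ∧ σ i = (s : ℕ)) ∧ (j ∈ S ∧ σ j = (t : ℕ))).card : ℝ)
        with hc
      have hc0 : 0 ≤ c := Nat.cast_nonneg _
      by_cases hxS : x S = 0
      · rw [hxS, mul_zero, zero_div]
        positivity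
      · have hxS' : 0 < x S := lt_of_le_of_ne (hx0 S) (Ne.symm hxS)
        have hpos : ∀ l ∈ S, 0 < n l := by
          intro l hl
          apply hwn'
          refine lt_of_lt_of_le hxS' ((Finset.single_le_sum (f := x) (fun S _ => hx0 S) ?_).trans
            (hdeg l))
          simpa using hl
        have hprod : (0 : ℝ) < ∏ l ∈ S, (n l : ℝ) :=
          Finset.prod_pos fun l hl => by exact_mod_cast hpos l hl
        have hc1 : c = (∏ l ∈ S, (n l : ℝ)) / (n i * n j) := by
          rw [← h4]; field_simp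
        have hm1 : (N : ℝ) ^ 2 * lam * x S / ∏ l ∈ S, (n l : ℝ) ≤ m S := Nat.le_ceil _
        calc (N : ℝ) ^ 2 * lam * x S / (n i * n j)
            = ((N : ℝ) ^ 2 * lam * x S / ∏ l ∈ S, (n l : ℝ)) * c := by
              rw [hc1]; field_simp
          _ ≤ (m S : ℝ) * c := mul_le_mul_of_nonneg_right hm1 hc0
    calc (lam : ℝ) ≤ ∑ S ∈ Finset.univ.filter (fun S : Finset I => i ∈ S ∧ j ∈ S),
          (N : ℝ) ^ 2 * lam * x S / (n i * n j) := by
          rw [← Finset.sum_div, ← Finset.mul_sum, le_div_iff₀ (by positivity)]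
          have h5 := hcov i j hij hd
          have h6 : (n i : ℝ) * n j ≤ (N * w i) * (N * w j) :=
            mul_le_mul (hnle i) (hnle j) hnj'.le (mul_nonneg hN0.le (hw i))
          calc (lam : ℝ) * (n i * n j) ≤ lam * ((N * w i) * (N * w j)) :=
                mul_le_mul_of_nonneg_left h6 hlam0.le
            _ = N ^ 2 * lam * (w i * w j) := by ring
            _ ≤ _ := mul_le_mul_of_nonneg_left h5 (by positivity)
      _ ≤ ∑ S ∈ Finset.univ.filter (fun S : Finset I => i ∈ S ∧ j ∈ S), (m S : ℝ) *
          (((Pi n S).filter fun σ => (i ∈ S ∧ σ i = (s : ℕ)) ∧ (j ∈ S ∧ σ j = (t : ℕ))).card : ℝ) := by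
          apply Finset.sum_le_sum
          intro S hS
          exact h3 S (Finset.mem_filter.1 hS).2
      _ ≤ _ := by
          apply Finset.sum_le_univ_sum_of_nonneg
          intro S
          positivity
  -- the degrees
  have hdegB : ∀ p : J, ((Finset.univ.filter fun b => p ∈ Sb b).card : ℝ) / lam ≤
      N * (1 + δ / 3) + δ / 3 * N := by
    rintro ⟨i, s⟩
    have hni : 0 < n i := lt_of_le_of_lt (Nat.zero_le _) s.2
    have hni' : (0 : ℝ) < n i := by exact_mod_cast hni
    have hwi := hnw i hni
    have h2 : ((Finset.univ.filter fun b => (⟨i, s⟩ : J) ∈ Sb b).card : ℝ) =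
        ∑ S : Finset I, (m S : ℝ) * (((Pi n S).filter fun σ => i ∈ S ∧ σ i = (s : ℕ)).card : ℝ) := by
      refine Eq.trans ?_ ((hcount (fun S σ => i ∈ S ∧ σ i = (s : ℕ))).trans ?_)
      · congr 2
        ext b
        simp only [hSb, Finset.mem_filter, Finset.mem_univ, true_and]
      · apply Finset.sum_congr rfl
        intro S _
        congr 3
        ext σ
        simp only [Finset.mem_filter]
    rw [h2]
    have h3 : ∀ S : Finset I, (m S : ℝ) * (((Pi n S).filter fun σ => i ∈ S ∧ σ i = (s : ℕ)).card : ℝ) ≤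
        (if i ∈ S then (N : ℝ) ^ 2 * lam * x S / n i else 0) + ∏ l ∈ S, (n l : ℝ) := by
      intro S
      by_cases hi : i ∈ S
      · rw [if_pos hi]
        have h4 := hone S i s hi
        set c : ℝ := (((Pi n S).filter fun σ => i ∈ S ∧ σ i = (s : ℕ)).card : ℝ) with hc
        have hc0 : 0 ≤ c := Nat.cast_nonneg _
        have hc1 : c = (∏ l ∈ S, (n l : ℝ)) / n i := by
          rw [← h4]; field_simp
        have hprod : (0 : ℝ) ≤ ∏ l ∈ S, (n l : ℝ) := Finset.prod_nonneg fun l _ => by positivity
        have hx0' := hx0 S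
        have hm1 : (m S : ℝ) ≤ (N : ℝ) ^ 2 * lam * x S / (∏ l ∈ S, (n l : ℝ)) + 1 :=
          (Nat.ceil_lt_add_one (by positivity)).le
        calc (m S : ℝ) * c ≤ ((N : ℝ) ^ 2 * lam * x S / (∏ l ∈ S, (n l : ℝ)) + 1) * c :=
              mul_le_mul_of_nonneg_right hm1 hc0
          _ = (N : ℝ) ^ 2 * lam * x S / (∏ l ∈ S, (n l : ℝ)) * c + c := by ring
          _ ≤ (N : ℝ) ^ 2 * lam * x S / n i + ∏ l ∈ S, (n l : ℝ) := by
            apply add_le_add
            · rcases hprod.lt_or_eq with h | h
              · apply le_of_eq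
                rw [hc1]; field_simp
              · rw [← h, div_zero, zero_mul]
                positivity
            · rw [hc1]
              apply div_le_self hprod
              exact_mod_cast hni
      · rw [if_neg hi]
        have h4 : ((Pi n S).filter fun σ => i ∈ S ∧ σ i = (s : ℕ)) = ∅ := by
          rw [Finset.filter_eq_empty_iff]
          intro σ _ h
          exact hi h.1
        rw [h4]
        simp only [Finset.card_empty, Nat.cast_zero, mul_zero, zero_add]
        exact Finset.prod_nonneg fun l _ => by positivity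
    have h4 : ∑ S : Finset I, (m S : ℝ) * (((Pi n S).filter fun σ => i ∈ S ∧ σ i = (s : ℕ)).card : ℝ) ≤
        (N : ℝ) ^ 2 * lam * w i / n i + K := by
      calc _ ≤ ∑ S : Finset I, ((if i ∈ S then (N : ℝ) ^ 2 * lam * x S / n i else 0) +
            ∏ l ∈ S, (n l : ℝ)) := Finset.sum_le_sum fun S _ => h3 S
        _ = (N : ℝ) ^ 2 * lam / n i * (∑ S ∈ Finset.univ.filter (fun S : Finset I => i ∈ S), x S) +
            K := by
            rw [Finset.sum_add_distrib, ← Finset.sum_filter, Finset.mul_sum, hK]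
            push_cast
            congr 1
            apply Finset.sum_congr rfl
            intro S _
            ring
        _ ≤ (N : ℝ) ^ 2 * lam / n i * w i + K := by
            have := mul_le_mul_of_nonneg_left (hdeg i)
              (show (0 : ℝ) ≤ (N : ℝ) ^ 2 * lam / n i by positivity)
            linarith
        _ = _ := by ring
    calc _ ≤ ((N : ℝ) ^ 2 * lam * w i / n i + K) / lam := div_le_div_of_nonneg_right h4 hlam0.le
      _ = N * (N * w i / n i) + K / lam := by field_simp
      _ ≤ N * (1 + δ / 3) + δ / 3 * N := by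
        apply add_le_add _ hKlam
        apply mul_le_mul_of_nonneg_left _ hN0.le
        rw [div_le_iff₀ hni']
        have h5 := hngt i
        have h6 := hwn i hwi
        have h7 : 1 ≤ δ / 3 * n i := by
          rw [div_le_iff₀ hδ0] at h6
          linarith
        linarith
  obtain ⟨G, F, _, _, _, blk, hb1, hb2, hb3⟩ := spread k hk Sb hSbk E
    (fun p p' h => fun h2 => h.1 (by rw [h2])) lam hlamN
    (fun p p' h => by convert hlam2 p p' h) (δ / 3 * N) (by positivity)
  have hb1' : ∀ f, (Finset.univ.filter fun v => blk f v).card ≤ k := fun f => by convert hb1 f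
  have hb2' : ∀ (p : J) (z : G), ((Finset.univ.filter fun f => blk f (p, z)).card : ℝ) ≤
      (((Finset.univ.filter fun b => p ∈ Sb b).card : ℝ) / lam + δ / 3 * N) * Fintype.card G :=
    fun p z => by convert hb2 p z
  have hG1 : (1 : ℝ) ≤ Fintype.card G := by
    exact_mod_cast Fintype.card_pos (α := G)
  have hG0 : (0 : ℝ) < Fintype.card G := by linarith
  set R : ℕ := ⌈N * (1 + δ) * Fintype.card G⌉₊ with hR
  have hRle : (N : ℝ) * (1 + δ) * Fintype.card G ≤ R := Nat.le_ceil _
  have hRlt : (R : ℝ) < N * (1 + δ) * Fintype.card G + 1 := Nat.ceil_lt_add_one (by positivity)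
  have hR0 : (0 : ℝ) < R := lt_of_lt_of_le (by positivity) hRle
  have hRle2 : (R : ℝ) ≤ N * (1 + 2 * δ) * Fintype.card G := by
    have h1 : 1 * 1 ≤ (N * δ) * (Fintype.card G : ℝ) :=
      mul_le_mul hNc hG1 zero_le_one (by positivity)
    nlinarith
  -- the design
  set blset : F → Finset (J × G) := fun f => Finset.univ.filter fun v => blk f v with hblset
  let Dg : Design k R (J × G) X F :=
    { hub := fun h t => h ∈ hub t.1.1
      blk := blk
      lab := fun f t => if h : t ∈ blset f then ((blset f).equivFin ⟨t, h⟩ : ℕ) else 0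
      hub_card := by
        intro t
        refine le_trans (le_of_eq ?_) (hhub t.1.1)
        congr 1
        ext h
        simp only [Finset.mem_filter, Finset.mem_univ, true_and]
      hub_exists := fun t => hhub0 t.1.1
      card_hub := by
        intro h
        have h1 : (Finset.univ.filter fun t : J × G => h ∈ hub t.1.1).card =
            ∑ i ∈ Finset.univ.filter (fun i => h ∈ hub i), n i * Fintype.card G := by
          rw [Finset.card_filter, Fintype.sum_prod_type, Fintype.sum_sigma, Finset.sum_filter]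
          apply Finset.sum_congr rfl
          intro i _
          by_cases hi : h ∈ hub i <;> simp [hi]
        suffices h2 : (Finset.univ.filter fun t : J × G => h ∈ hub t.1.1).card ≤ R by
          convert h2
        rw [h1, ← Nat.cast_le (α := ℝ)]
        push_cast
        refine le_trans ?_ hRle
        rw [← Finset.sum_mul]
        apply mul_le_mul_of_nonneg_right _ hG0.le
        calc ∑ i ∈ Finset.univ.filter (fun i => h ∈ hub i), (n i : ℝ) ≤
              ∑ i ∈ Finset.univ.filter (fun i => h ∈ hub i), N * w i :=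
              Finset.sum_le_sum fun i _ => hnle i
          _ = N * ∑ i ∈ Finset.univ.filter (fun i => h ∈ hub i), w i := by rw [Finset.mul_sum]
          _ ≤ N * 1 := mul_le_mul_of_nonneg_left (hload h) hN0.le
          _ ≤ N * (1 + δ) := mul_le_mul_of_nonneg_left (by linarith) hN0.le
      blk_card := by
        rintro ⟨p, z⟩
        rw [← Nat.cast_le (α := ℝ)]
        refine (hb2' p z).trans (le_trans ?_ hRle)
        apply mul_le_mul_of_nonneg_right _ hG0.le
        have := hdegB p
        linarith
      card_blk := hb1'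
      lab_lt := by
        intro f t ht
        have h1 : t ∈ blset f := by simpa [hblset] using ht
        rw [dif_pos h1]
        exact lt_of_lt_of_le (Fin.is_lt _) (hb1' f)
      lab_inj := by
        intro f t t' ht ht' heq
        have h1 : t ∈ blset f := by simpa [hblset] using ht
        have h2 : t' ∈ blset f := by simpa [hblset] using ht'
        rw [dif_pos h1, dif_pos h2] at heq
        have h3 := (blset f).equivFin.injective (Fin.ext heq)
        exact congrArg Subtype.val h3
      cover := by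
        rintro ⟨p, z⟩ ⟨p', z'⟩ hne
        by_cases hd : Disjoint (hub p.1) (hub p'.1)
        · right
          have hij : p.1 ≠ p'.1 := by
            intro h
            rw [h, disjoint_self] at hd
            have := hhub0 p'.1
            rw [hd] at this
            exact Finset.not_nonempty_empty this
          exact hb3 p p' ⟨hij, hd⟩ z z'
        · left
          rw [Finset.not_disjoint_iff] at hd
          exact hd }
  obtain ⟨C, hC⟩ := Dg.lower_bound (by omega) (by
    have : 0 < R := by exact_mod_cast hR0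
    omega)
  refine ⟨C, fun D => ?_⟩
  refine le_trans ?_ (hC D)
  have hcard : (Fintype.card (J × G) : ℝ) = (∑ i, (n i : ℝ)) * Fintype.card G := by
    rw [Fintype.card_prod, Fintype.card_sigma]
    push_cast
    simp
  have h1 : (N : ℝ) * W - Fintype.card I ≤ ∑ i, (n i : ℝ) := by
    have h2 : ∑ i, (N * w i - 1) ≤ ∑ i, (n i : ℝ) := Finset.sum_le_sum fun i _ => (hngt i).le
    rw [Finset.sum_sub_distrib, ← Finset.mul_sum] at h2
    simpa using h2
  have h2 : W - ε ≤ (Fintype.card (J × G) : ℝ) / R := by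
    rw [hcard, le_div_iff₀ hR0]
    rcases le_or_gt (W - ε) 0 with h | h
    · refine le_trans (mul_nonpos_of_nonpos_of_nonneg h hR0.le) ?_
      positivity
    · calc (W - ε) * R ≤ (W - ε) * (N * (1 + 2 * δ) * Fintype.card G) :=
            mul_le_mul_of_nonneg_left hRle2 h.le
        _ = (N * ((W - ε) * (1 + 2 * δ))) * Fintype.card G := by ring
        _ ≤ (N * W - Fintype.card I) * Fintype.card G := by
          apply mul_le_mul_of_nonneg_right _ hG0.le
          have h3 : (W - ε) * (1 + 2 * δ) ≤ W - ε / 2 := by nlinarith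
          have h4 := mul_le_mul_of_nonneg_left h3 hN0.le
          linarith
        _ ≤ _ := mul_le_mul_of_nonneg_right h1 hG0.le
  have hD : (0 : ℝ) ≤ D := Nat.cast_nonneg _
  have h3 := mul_le_mul_of_nonneg_right h2 hD
  linarith

end Pool.Agent.Helper14.SL
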